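import Mathlib

namespace Pool.Agent.Results.MP_027985_al.Soluble

/-- An admissible class of groups. -/
structure Admissible (K : (G : Type) → [Group G] → Prop) : Prop where
  sub : ∀ (G H : Type) [Group G] [Group H] (f : H →* G), Function.Injective f → K G → K H
  quo : ∀ (G Q : Type) [Group G] [Group Q] (f : G →* Q), Function.Surjective f → K G → K Q
  aut : ∀ (G : Type) [Group G], K G → K (MulAut G)
  miss : ∃ (G : Type) (_ : Group G), Countable G ∧ ¬ K G

variable {K : (G : Type) → [Group G] → Prop}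

/-- The rank two lattice. -/
abbrev L := Multiplicative ℤ × Multiplicative ℤ

/-- Upper shear. -/
def sa (n : ℤ) : MulAut L where
  toFun v := (v.1 * v.2 ^ (2 * n), v.2)
  invFun v := (v.1 * v.2 ^ (-(2 * n)), v.2)
  left_inv v := by simp [mul_assoc]
  right_inv v := by simp [mul_assoc]
  map_mul' v w := by simp [mul_zpow, mul_mul_mul_comm]

/-- Swap. -/
def sw : MulAut L := MulEquiv.prodComm

/-- Shears as a homomorphism. -/
def sA : Multiplicative ℤ →* MulAut L := MonoidHom.mk' (fun n => sa n.toAdd) (by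
  intro a b
  ext v
  · simp [sa, mul_add, zpow_add]
    ring
  · simp [sa])

lemma no_L (hK : Admissible K) : ¬ K L := by
  intro h
  obtain ⟨G, _, hG, hnG⟩ := hK.miss
  let b : ℤ → MulAut L := fun i => sw * sA (Multiplicative.ofAdd i) * sw
  have hsw : sw * sw = 1 := rfl
  have hb : ∀ i j, b i * b j = b (i + j) := by
    intro i j
    simp only [b, ofAdd_add, map_mul]
    calc _ = sw * sA (Multiplicative.ofAdd i) * (sw * sw) * sA (Multiplicative.ofAdd j) * sw := by
          simp only [mul_assoc]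
      _ = _ := by rw [hsw]; simp only [mul_assoc, one_mul]
  have hb0 : b 0 = 1 := by simp [b, hsw]
  let X0 : Set L := {v | |v.2.toAdd| < |v.1.toAdd|}
  let X1 : Set L := {v | |v.1.toAdd| < |v.2.toAdd|}
  have ha : ∀ n : Multiplicative ℤ, n ≠ 1 → ∀ v ∈ X1, sA n v ∈ X0 := by
    intro n hn v hv
    have hn' : n.toAdd ≠ 0 := hn
    change |v.2.toAdd| < |v.1.toAdd + (2 * n.toAdd) • v.2.toAdd|
    have h1 : |v.1.toAdd| < |v.2.toAdd| := hv
    have h2 : 1 ≤ |n.toAdd| := Int.one_le_abs hn'
    have h3 := abs_sub (v.1.toAdd + (2 * n.toAdd) • v.2.toAdd) v.1.toAdd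
    rw [add_sub_cancel_left, smul_eq_mul, abs_mul, abs_mul, abs_two] at h3
    rw [smul_eq_mul]
    nlinarith [abs_nonneg v.2.toAdd]
  have hb1 : ∀ i, i ≠ 0 → ∀ v ∈ X0, b i v ∈ X1 := fun i hi v hv =>
    ha (Multiplicative.ofAdd i) hi (sw v) hv
  let f : ∀ _ : ℤ, Multiplicative ℤ →* MulAut L := fun i =>
    MonoidHom.mk' (fun n => b i * sA n * b (-i)) (by
      intro m n
      rw [map_mul]
      calc _ = b i * sA m * (b (-i) * b i) * sA n * b (-i) := by
            rw [hb, neg_add_cancel, hb0]; simp only [mul_assoc, one_mul]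
        _ = _ := by simp only [mul_assoc])
  have hap : ∀ i j v, b i (b j v) = b (i + j) v := fun i j v => by rw [← hb]; rfl
  have hinj := Monoid.CoprodI.lift_injective_of_ping_pong f
    (Or.inl (by simp)) (fun i => {v : L | b (-i) v ∈ X0})
    (fun i => ⟨b i (Multiplicative.ofAdd 1, 1), by
      change b (-i) (b i _) ∈ X0
      rw [hap, neg_add_cancel, hb0]
      simp [X0]⟩)
    (by
      intro i j hij
      rw [Function.onFun, Set.disjoint_left]
      intro v h1 h2
      have h3 := hb1 (-j + i) (by omega) _ h1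
      rw [hap, add_neg_cancel_right] at h3
      exact lt_asymm (show |(b (-j) v).1.toAdd| < |(b (-j) v).2.toAdd| from h3) h2)
    (by
      intro i j hij n hn
      rintro _ ⟨v, hv, rfl⟩
      change b (-i) (b i (sA n (b (-i) v))) ∈ X0
      rw [hap, neg_add_cancel, hb0]
      have h3 := hb1 (-i + j) (by omega) _ hv
      rw [hap, add_neg_cancel_right] at h3
      exact ha n hn _ h3)
  obtain ⟨g, hg⟩ := exists_surjective_nat G
  refine hnG (hK.quo _ G (Monoid.CoprodI.lift (fun i : ℤ => zpowersHom G (g i.toNat))) ?_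
    (hK.sub _ _ _ hinj (hK.aut _ h)))
  intro x
  obtain ⟨k, rfl⟩ := hg x
  exact ⟨Monoid.CoprodI.of (i := (k : ℤ)) (Multiplicative.ofAdd 1), by simp⟩

lemma no_vec (hK : Admissible K) (p : ℕ) [Fact p.Prime] (W : Type) [AddCommGroup W]
    [Module (ZMod p) W] (ι : Type) (b : Module.Basis ι (ZMod p) W)
    (h : K (Multiplicative W)) : Finite W := by
  by_contra hfin
  obtain ⟨G, _, hG, hnG⟩ := hK.miss
  have hι : Infinite ι := by
    by_contra hc
    have : Finite ι := not_infinite_iff_finite.mp hc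
    have : Module.Finite (ZMod p) W := Module.Finite.of_basis b
    exact hfin (Module.finite_of_finite (ZMod p))
  let φ : Equiv.Perm ι →* MulAut (Multiplicative W) :=
    MonoidHom.mk' (fun e => AddEquiv.toMultiplicative (b.equiv b e).toAddEquiv) (by
      intro e e'
      have : b.equiv b (e * e') = (b.equiv b e').trans (b.equiv b e) :=
        (b.equiv_trans b b e' e).symm
      rw [this]
      rfl)
  have hφ : Function.Injective φ := by
    rw [injective_iff_map_eq_one]
    intro e he
    ext1 i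
    have h1 : b.equiv b e (b i) = b i :=
      congrArg (fun α : MulAut (Multiplicative W) => α (Multiplicative.ofAdd (b i))) he
    rw [Module.Basis.equiv_apply] at h1
    exact b.injective h1
  classical
  obtain ⟨u⟩ := nonempty_embedding_nat G
  let w := u.trans (Infinite.natEmbedding ι)
  exact hnG (hK.sub _ _ ((Equiv.Perm.viaEmbeddingHom w).comp (MulAction.toPermHom G G))
    ((Equiv.Perm.viaEmbeddingHom_injective w).comp MulAction.toPerm_injective)
    (hK.sub _ _ φ hφ (hK.aut _ h)))

lemma no_elem (hK : Admissible K) (V : Type) [CommGroup V] (p : ℕ) (hp : p.Prime)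
    (hV : ∀ x : V, x ^ p = 1) (h : K V) : Finite V := by
  have : Fact p.Prime := ⟨hp⟩
  have inst : Module (ZMod p) (Additive V) := AddCommGroup.zmodModule (fun x => hV x.toMul)
  have h2 : Finite (Additive V) := no_vec hK p (Additive V) _
    (Module.Basis.ofVectorSpace (ZMod p) (Additive V))
    (hK.sub _ _ (MulEquiv.multiplicativeAdditive V).toMonoidHom
      (MulEquiv.multiplicativeAdditive V).injective h)
  exact Finite.of_equiv (Additive V) Additive.toMul

lemma bdd_fin (hK : Admissible K) (N : ℕ) : N ≠ 0 → ∀ (T : Type) [CommGroup T],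
    (∀ x : T, x ^ N = 1) → K T → Finite T := by
  induction N using induction_on_primes with
  | zero => exact fun h => absurd rfl h
  | one =>
    intro _ T _ hT _
    have : Subsingleton T := ⟨fun x y => by rw [← pow_one x, ← pow_one y, hT, hT]⟩
    infer_instance
  | prime_mul p a hp ih =>
    intro h0 T _ hT h
    have h1 : Finite (powMonoidHom p : T →* T).ker :=
      no_elem hK _ p hp (fun x => Subtype.ext x.2) (hK.sub _ _ _ (Subgroup.subtype_injective _) h)
    have h2 : Finite (powMonoidHom p : T →* T).range :=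
      ih (right_ne_zero_of_mul h0) _ (by
        rintro ⟨_, x, rfl⟩
        exact Subtype.ext (by simpa [← pow_mul] using hT x))
        (hK.sub _ _ _ (Subgroup.subtype_injective _) h)
    have h3 : Finite (T ⧸ (powMonoidHom p : T →* T).ker) :=
      Finite.of_equiv _ (QuotientGroup.quotientKerEquivRange _).symm.toEquiv
    exact Finite.of_equiv _ (Subgroup.groupEquivQuotientProdSubgroup
      (s := (powMonoidHom p : T →* T).ker)).symm

lemma bdd (hK : Admissible K) (W : Type) [CommGroup W] (q r : ℕ) (hq : q.Prime) (hr : r.Prime)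
    (hqr : q ≠ r) (hW : ∀ x : W, orderOf x ≠ 0 ∧ (orderOf x).Coprime (q * r)) (h : K W) :
    Finite W := by
  by_contra hfin
  have hbij : ∀ s : ℕ, s ∣ q * r → Function.Bijective (powMonoidHom s : W →* W) := by
    intro s hs
    constructor
    · rw [injective_iff_map_eq_one]
      intro x hx
      exact orderOf_eq_one_iff.mp (Nat.Coprime.eq_one_of_dvd
        ((hW x).2.coprime_dvd_right hs) (orderOf_dvd_of_pow_eq_one hx))
    · intro x
      obtain ⟨m, hm⟩ := exists_pow_eq_self_of_coprime ((hW x).2.coprime_dvd_right hs).symm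
      exact ⟨x ^ m, by rw [powMonoidHom_apply, ← pow_mul, mul_comm, pow_mul, hm]⟩
  let α : MulAut W := MulEquiv.ofBijective _ (hbij q (dvd_mul_right _ _))
  let β : MulAut W := MulEquiv.ofBijective _ (hbij r (dvd_mul_left _ _))
  have hc : Commute α β := by
    ext x
    change (x ^ r) ^ q = (x ^ q) ^ r
    rw [← pow_mul, ← pow_mul, mul_comm]
  have hα : ∀ (k : ℕ) x, (α ^ k) x = x ^ (q ^ k) := by
    intro k
    induction k with
    | zero => simp
    | succ k ih => intro x; rw [pow_succ, pow_succ', pow_mul, ← ih]; rfl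
  have hβ : ∀ (k : ℕ) x, (β ^ k) x = x ^ (r ^ k) := by
    intro k
    induction k with
    | zero => simp
    | succ k ih => intro x; rw [pow_succ, pow_succ', pow_mul, ← ih]; rfl
  have key : ∀ m n : ℕ, (∀ x : W, x ^ m = x ^ n) → m = n := by
    intro m n hmn
    by_contra hne
    wlog hlt : m < n generalizing m n
    · exact this n m (fun x => (hmn x).symm) (Ne.symm hne) (by omega)
    refine hfin (bdd_fin hK (n - m) (by omega) W (fun x => ?_) h)
    have := hmn x
    rw [show n = m + (n - m) by omega, pow_add] at this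
    exact (left_eq_mul.mp this)
  refine no_L hK (hK.sub _ _ (MonoidHom.noncommCoprod (zpowersHom _ α) (zpowersHom _ β)
    (fun a b => hc.zpow_zpow _ _)) ?_ (hK.aut _ h))
  rw [injective_iff_map_eq_one]
  rintro ⟨a, b⟩ hab
  have h1 : α ^ a.toAdd * β ^ b.toAdd = 1 := hab
  have h2 : α ^ a.toAdd.toNat * β ^ b.toAdd.toNat = α ^ (-a.toAdd).toNat * β ^ (-b.toAdd).toNat := by
    have e1 : α ^ a.toAdd.toNat = α ^ (-a.toAdd).toNat * α ^ a.toAdd := by
      rw [← zpow_natCast, ← zpow_natCast, ← zpow_add]; congr 1; omega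
    have e2 : β ^ b.toAdd.toNat = β ^ b.toAdd * β ^ (-b.toAdd).toNat := by
      rw [← zpow_natCast, ← zpow_natCast, ← zpow_add]; congr 1; omega
    rw [e1, e2, mul_assoc, ← mul_assoc (α ^ a.toAdd), h1, one_mul]
  have h3 := key (r ^ b.toAdd.toNat * q ^ a.toAdd.toNat)
    (r ^ (-b.toAdd).toNat * q ^ (-a.toAdd).toNat) (fun x => by
      rw [pow_mul, pow_mul, ← hβ, ← hβ, ← hα, ← hα]
      exact congrArg (fun γ : MulAut W => γ x) h2)
  have h4 := congrArg Nat.factorization h3
  rw [Nat.factorization_mul (pow_ne_zero _ hr.ne_zero) (pow_ne_zero _ hq.ne_zero),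
    Nat.factorization_mul (pow_ne_zero _ hr.ne_zero) (pow_ne_zero _ hq.ne_zero),
    hr.factorization_pow, hr.factorization_pow, hq.factorization_pow, hq.factorization_pow] at h4
  have h5 := DFunLike.congr_fun h4 q
  have h6 := DFunLike.congr_fun h4 r
  simp [hqr, hqr.symm] at h5 h6
  have h7 : a.toAdd = 0 := by omega
  have h8 : b.toAdd = 0 := by omega
  exact Prod.ext h7 h8

lemma tors (hK : Admissible K) (T : Type) [CommGroup T] (hT : ∀ x : T, orderOf x ≠ 0) (h : K T) :
    Finite T := by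
  let P : Subgroup T :=
    { carrier := {x | ∃ k : ℕ, x ^ (6 ^ k) = 1}
      one_mem' := ⟨0, by simp⟩
      inv_mem' := fun ⟨k, hk⟩ => ⟨k, by rw [inv_pow, hk, inv_one]⟩
      mul_mem' := fun {x y} ⟨k, hk⟩ ⟨l, hl⟩ => ⟨k + l, by
        rw [mul_pow, pow_add, pow_mul, hk, one_pow, mul_comm (6 ^ k), pow_mul, hl, one_pow,
          one_mul]⟩ }
  have h1 : Finite P := bdd hK P 5 7 (by norm_num) (by norm_num) (by norm_num) (by
    intro x
    obtain ⟨k, hk⟩ := x.2
    rw [← Subgroup.orderOf_coe]
    exact ⟨hT x, Nat.Coprime.coprime_dvd_left (orderOf_dvd_of_pow_eq_one hk)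
      (Nat.Coprime.pow_left k (by norm_num))⟩) (hK.sub _ _ _ (Subgroup.subtype_injective _) h)
  have h2 : Finite (T ⧸ P) := bdd hK (T ⧸ P) 2 3 (by norm_num) (by norm_num) (by norm_num) (by
    intro y
    obtain ⟨x, rfl⟩ := QuotientGroup.mk_surjective y
    have h0 : orderOf (x : T ⧸ P) ≠ 0 := fun h0 =>
      hT x (zero_dvd_iff.mp (h0 ▸ orderOf_map_dvd (QuotientGroup.mk' P) x))
    refine ⟨h0, Nat.coprime_of_dvd (fun s hs hs1 hs2 => ?_)⟩
    obtain ⟨c, hc⟩ := hs1
    obtain ⟨d, hd⟩ := hs2
    have h3 : ((x ^ (c * 6) : T) : T ⧸ P) = 1 := by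
      rw [QuotientGroup.mk_pow, ← orderOf_dvd_iff_pow_eq_one, hc]
      exact ⟨d, by rw [show 6 = 2 * 3 by norm_num, hd]; ring⟩
    obtain ⟨k, hk⟩ := (QuotientGroup.eq_one_iff _).mp h3
    have h4 : ((x ^ c : T) : T ⧸ P) = 1 := (QuotientGroup.eq_one_iff _).mpr ⟨k + 1, by
      rw [← hk, ← pow_mul, ← pow_mul, pow_succ']; congr 1; ring⟩
    rw [QuotientGroup.mk_pow, ← orderOf_dvd_iff_pow_eq_one, hc] at h4
    have h5 : c ≠ 0 := by rintro rfl; exact h0 hc
    have h6 := Nat.le_of_dvd (Nat.pos_of_ne_zero h5) h4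
    have := hs.two_le
    have := Nat.pos_of_ne_zero h5
    nlinarith) (hK.quo _ _ _ (QuotientGroup.mk'_surjective P) h)
  exact Finite.of_equiv _ (Subgroup.groupEquivQuotientProdSubgroup (s := P)).symm

lemma abel (hK : Admissible K) (A : Type) [CommGroup A]
    (h : K A) : ∃ a : A, (Subgroup.zpowers a).FiniteIndex := by
  by_cases hT : ∀ x : A, orderOf x ≠ 0
  · have := tors hK A hT h
    exact ⟨1, inferInstance⟩
  push Not at hT
  obtain ⟨a, ha⟩ := hT
  refine ⟨a, ?_⟩
  have : Finite (A ⧸ Subgroup.zpowers a) := by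
    refine tors hK _ (fun y h0 => ?_) (hK.quo _ _ _ (QuotientGroup.mk'_surjective _) h)
    obtain ⟨x, rfl⟩ := QuotientGroup.mk_surjective y
    refine no_L hK (hK.sub _ _ (MonoidHom.coprod (zpowersHom _ a) (zpowersHom _ x)) ?_ h)
    rw [injective_iff_map_eq_one]
    rintro ⟨m, n⟩ hmn
    have h1 : a ^ m.toAdd * x ^ n.toAdd = 1 := hmn
    have h2 : ((x : A ⧸ Subgroup.zpowers a)) ^ n.toAdd = 1 := by
      rw [← QuotientGroup.mk_zpow, QuotientGroup.eq_one_iff, eq_inv_of_mul_eq_one_right h1]
      exact inv_mem (Subgroup.zpow_mem_zpowers _ _)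
    rw [← orderOf_dvd_iff_zpow_eq_one, h0] at h2
    have h3 : n.toAdd = 0 := by simpa using h2
    rw [h3, zpow_zero, mul_one, ← orderOf_dvd_iff_zpow_eq_one, ha] at h1
    exact Prod.ext (by simpa using h1) h3
  exact Subgroup.finiteIndex_of_finite_quotient

lemma ext (hK : Admissible K) (G : Type) [Group G] (h : K G) (N : Subgroup G) [N.Normal]
    (h1 : ∃ a : N, (Subgroup.zpowers a).FiniteIndex)
    (h2 : ∃ x : G ⧸ N, (Subgroup.zpowers x).FiniteIndex) :
    ∃ g : G, (Subgroup.zpowers g).FiniteIndex := by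
  obtain ⟨a, ha⟩ := h1
  obtain ⟨y, hy⟩ := h2
  obtain ⟨x, rfl⟩ := QuotientGroup.mk_surjective y
  by_cases hx : IsOfFinOrder (x : G ⧸ N)
  · have : Finite (Subgroup.zpowers (x : G ⧸ N)) := hx.finite_zpowers
    have : Finite (G ⧸ N) := Finite.of_equiv _ (Subgroup.groupEquivQuotientProdSubgroup
      (s := Subgroup.zpowers (x : G ⧸ N))).symm
    have hN : N.FiniteIndex := Subgroup.finiteIndex_of_finite_quotient
    refine ⟨a, ⟨?_⟩⟩
    have e : Subgroup.zpowers (a : G) = (Subgroup.zpowers a).map N.subtype := by simp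
    rw [e, Subgroup.index_map_subtype]
    exact mul_ne_zero ha.index_ne_zero hN.index_ne_zero
  by_cases haf : IsOfFinOrder a
  · have : Finite (Subgroup.zpowers a) := haf.finite_zpowers
    have : Finite N := Finite.of_equiv _ (Subgroup.groupEquivQuotientProdSubgroup
      (s := Subgroup.zpowers a)).symm
    refine ⟨x, ?_⟩
    have : Finite (G ⧸ Subgroup.zpowers x) := by
      refine Finite.of_surjective
        (fun p : N × ((G ⧸ N) ⧸ Subgroup.zpowers (x : G ⧸ N)) =>
          ((p.1 * p.2.out.out : G) : G ⧸ Subgroup.zpowers x)) ?_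
      intro z
      obtain ⟨g, rfl⟩ := QuotientGroup.mk_surjective z
      let t : (G ⧸ N) ⧸ Subgroup.zpowers (x : G ⧸ N) := ((g : G ⧸ N) : _)
      have e1 : (t.out)⁻¹ * (g : G ⧸ N) ∈ Subgroup.zpowers (x : G ⧸ N) :=
        QuotientGroup.eq.mp (QuotientGroup.out_eq' t)
      obtain ⟨k, hk⟩ := e1
      have e2 : g * (x ^ k)⁻¹ * (t.out.out)⁻¹ ∈ N := by
        rw [← QuotientGroup.eq_one_iff]
        simp only [QuotientGroup.mk_mul, QuotientGroup.mk_inv, QuotientGroup.mk_zpow,
          QuotientGroup.out_eq']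
        simp only at hk
        rw [hk]
        group
      refine ⟨(⟨_, e2⟩, t), QuotientGroup.eq.mpr ⟨k, ?_⟩⟩
      simp only
      group
    exact Subgroup.finiteIndex_of_finite_quotient
  exfalso
  let M := (Subgroup.zpowers a).normalCore.index
  have hM : M ≠ 0 := Subgroup.FiniteIndex.index_ne_zero
  have hpow : ∀ g : G, ∃ k : ℤ, (g * a * g⁻¹) ^ M = (a : G) ^ k := by
    intro g
    have hn : g * a * g⁻¹ ∈ N := Subgroup.Normal.conj_mem inferInstance _ a.2 g
    obtain ⟨k, hk⟩ := (Subgroup.zpowers a).normalCore_le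
      ((Subgroup.zpowers a).normalCore.pow_index_mem ⟨_, hn⟩)
    exact ⟨k, (congrArg Subtype.val hk).symm⟩
  have hle : Subgroup.normalClosure {(a : G) ^ M} ≤ Subgroup.zpowers (a : G) := by
    rw [Subgroup.normalClosure, Subgroup.closure_le]
    intro z hz
    obtain ⟨w, hw, hc⟩ := Group.mem_conjugatesOfSet_iff.mp hz
    obtain ⟨g, rfl⟩ := isConj_iff.mp hc
    obtain ⟨k, hk⟩ := hpow g
    rw [Set.mem_singleton_iff.mp hw, ← conj_pow, hk]
    exact Subgroup.zpow_mem_zpowers _ _
  have : IsCyclic (Subgroup.normalClosure {(a : G) ^ M}) := Subgroup.isCyclic_of_le hle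
  obtain ⟨c, hc⟩ := IsCyclic.exists_generator (α := Subgroup.normalClosure {(a : G) ^ M})
  have hc0 : orderOf (c : G) = 0 := by
    rw [orderOf_eq_zero_iff]
    intro hf
    obtain ⟨k, hk⟩ := hc ⟨_, Subgroup.subset_normalClosure rfl⟩
    have e : (c : G) ^ k = (a : G) ^ M := congrArg Subtype.val hk
    have h3 : IsOfFinOrder ((a : G) ^ M) := e ▸ hf.zpow
    exact haf (Submonoid.isOfFinOrder_coe.mp (h3.of_pow hM))
  have hcon : ∀ g : G, ∃ k : ℤ, g * c * g⁻¹ = (c : G) ^ k := by
    intro g
    obtain ⟨k, hk⟩ := hc ⟨g * c * g⁻¹, Subgroup.Normal.conj_mem inferInstance _ c.2 g⟩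
    exact ⟨k, (congrArg Subtype.val hk).symm⟩
  obtain ⟨k, hk⟩ := hcon x
  obtain ⟨l, hl⟩ := hcon x⁻¹
  have hkl : k * l = 1 := by
    have e : (c : G) ^ (k * l - 1) = 1 := by
      rw [zpow_sub, zpow_mul, ← hk, conj_zpow, ← hl]
      group
    rw [← orderOf_dvd_iff_zpow_eq_one, hc0] at e
    have : k * l - 1 = 0 := by simpa using e
    omega
  have hcomm : Commute (c : G) (x * x) := by
    have e : x * x * c * (x * x)⁻¹ = (c : G) ^ (k * k) := by
      rw [zpow_mul, ← hk, conj_zpow, ← hk]
      group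
    have e2 : k * k = 1 := by
      rcases Int.eq_one_or_neg_one_of_mul_eq_one hkl with h | h <;> simp [h]
    rw [e2, zpow_one] at e
    exact (mul_inv_eq_iff_eq_mul.mp e).symm
  refine no_L hK (hK.sub _ _ (MonoidHom.noncommCoprod (zpowersHom _ (c : G)) (zpowersHom _ (x * x))
    (fun _ _ => hcomm.zpow_zpow _ _)) ?_ h)
  rw [injective_iff_map_eq_one]
  rintro ⟨m, n⟩ hmn
  have h1 : (c : G) ^ m.toAdd * (x * x) ^ n.toAdd = 1 := hmn
  have hcN : (c : G) ∈ N := (Subgroup.zpowers_le.mpr a.2) (hle c.2)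
  have h2 : ((x : G ⧸ N)) ^ (2 * n.toAdd) = 1 := by
    rw [← QuotientGroup.mk_zpow, QuotientGroup.eq_one_iff, zpow_mul, zpow_two,
      eq_inv_of_mul_eq_one_right h1]
    exact inv_mem (zpow_mem hcN _)
  rw [← orderOf_dvd_iff_zpow_eq_one, orderOf_eq_zero_iff.mpr hx] at h2
  have h3 : n.toAdd = 0 := by simpa using h2
  rw [h3, zpow_zero, mul_one, ← orderOf_dvd_iff_zpow_eq_one, hc0] at h1
  exact Prod.ext (by simpa using h1) h3

lemma solu (hK : Admissible K) (G : Type) [Group G]
    [Group.IsSolvable G] (h : K G) : ∃ g : G, (Subgroup.zpowers g).FiniteIndex := by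
  obtain ⟨n, hn⟩ := Group.IsSolvable.solvable (G := G)
  induction n generalizing G with
  | zero =>
    refine ⟨1, ⟨?_⟩⟩
    rw [derivedSeries_zero] at hn
    rw [Subgroup.zpowers_one_eq_bot, ← hn, Subgroup.index_top]
    exact one_ne_zero
  | succ n ih =>
    refine ext hK G h (commutator G) (ih _ (hK.sub _ _ _ (Subgroup.subtype_injective _) h) ?_)
      (abel hK (Abelianization G) (hK.quo _ _ Abelianization.of
        (QuotientGroup.mk'_surjective (commutator G)) h))
    have key : ∀ k, (derivedSeries (commutator G) k).map (commutator G).subtype ≤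
        derivedSeries G (k + 1) := by
      intro k
      induction k with
      | zero => exact Subgroup.map_subtype_le _
      | succ k ihk =>
        rw [derivedSeries_succ, derivedSeries_succ G (k + 1), Subgroup.map_commutator]
        exact Subgroup.commutator_mono ihk ihk
    have h3 := key n
    rw [hn, le_bot_iff, Subgroup.map_eq_bot_iff_of_injective _ (Subgroup.subtype_injective _)] at h3
    exact h3

theorem result (K : (G : Type) → [Group G] → Prop) (hK : Admissible K) (G : Type) [Group G]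
    (h : K G) (H : Subgroup G) (hH : H.FiniteIndex) (hs : Group.IsSolvable H) :
    ∃ g : G, (Subgroup.zpowers g).FiniteIndex := by
  obtain ⟨a, ha⟩ := solu hK H (hK.sub _ _ _ (Subgroup.subtype_injective _) h)
  refine ⟨a, ⟨?_⟩⟩
  have e : Subgroup.zpowers (a : G) = (Subgroup.zpowers a).map H.subtype := by simp
  rw [e, Subgroup.index_map_subtype]
  exact mul_ne_zero ha.index_ne_zero hH.index_ne_zero

end Pool.Agent.Results.MP_027985_al.Soluble
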